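import Mathlib

/-!
# Cusp forms of weight 3/2: boundedness
-/

set_option autoImplicit false

open scoped Classical MatrixGroups ModularForm

namespace Pool.Agent.Q84.HW

open Filter UpperHalfPlane CongruenceSubgroup Topology

/-- `ε_d` for odd `d`: `1` if `d ≡ 1 mod 4`, `i` if `d ≡ 3 mod 4` -/
noncomputable def eps (d : ℤ) : ℂ := if d % 4 = 1 then 1 else Complex.I

/-- Shimura's symbol `(c/d)`, `d` odd -/
def sym (c d : ℤ) : ℤ := if c < 0 ∧ d < 0 then -jacobiSym c d.natAbs else jacobiSym c d.natAbs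

/-- the theta multiplier `j(γ, z) = ε_d⁻¹ (c/d) (c z + d) ^ (1/2)` -/
noncomputable def j (γ : SL(2, ℤ)) (z : ℍ) : ℂ :=
  (eps (γ 1 1))⁻¹ * (sym (γ 1 0) (γ 1 1) : ℂ) * ((γ 1 0 : ℂ) * z + (γ 1 1 : ℂ)) ^ (1 / 2 : ℂ)

/-- `f` is a cusp form of weight `3/2` on `Γ₀(N)` with character `χ`: holomorphic,
`f(γ z) = χ(d) j(γ, z) ^ 3 f(z)` for `γ` in `Γ₀(N)`, and `f(σ z) (c z + d) ^ (-3/2)` tends to `0` for `Im z → ∞`, for every
`σ` in `SL₂(ℤ)` -/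
structure IsCuspForm (N : ℕ) (χ : DirichletCharacter ℂ N) (f : ℍ → ℂ) : Prop where
  holo : MDifferentiable (modelWithCornersSelf ℂ ℂ) (modelWithCornersSelf ℂ ℂ) f
  slash : ∀ γ ∈ Gamma0 N, ∀ z : ℍ, f (γ • z) = χ ((γ 1 1 : ℤ) : ZMod N) * j γ z ^ 3 * f z
  zero : ∀ σ : SL(2, ℤ), IsZeroAtImInfty fun z : ℍ => f (σ • z) * ((σ 1 0 : ℂ) * z + (σ 1 1 : ℂ)) ^ (-(3 / 2) : ℂ)

theorem eps_pow (d : ℤ) : eps d ^ 4 = 1 := by
  unfold eps
  split_ifs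
  · simp
  · exact Complex.I_pow_four

theorem coprime_entries (γ : SL(2, ℤ)) : IsCoprime (γ 1 0) (γ 1 1) := by
  have h := γ.det_coe
  rw [Matrix.det_fin_two] at h
  exact ⟨-(γ 0 1), γ 0 0, by linarith⟩

theorem sym_sq (γ : SL(2, ℤ)) : sym (γ 1 0) (γ 1 1) ^ 2 = 1 := by
  have h1 : IsCoprime (γ 1 0) ((γ 1 1).natAbs : ℤ) := by
    rw [Int.isCoprime_iff_gcd_eq_one]
    have h := coprime_entries γ
    rw [Int.isCoprime_iff_gcd_eq_one] at h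
    rw [Int.gcd_eq_natAbs, Int.natAbs_natCast, ← Int.gcd_eq_natAbs]
    exact h
  have h2 : jacobiSym (γ 1 0) (γ 1 1).natAbs ^ 2 = 1 := by
    apply jacobiSym.sq_one
    rw [Int.isCoprime_iff_gcd_eq_one] at h1
    exact h1
  unfold sym
  split_ifs
  · rw [neg_sq, h2]
  · exact h2

theorem denom_eq (γ : SL(2, ℤ)) (z : ℍ) : denom γ z = (γ 1 0 : ℂ) * z + (γ 1 1 : ℂ) := by
  simp [denom]

theorem j_pow (γ : SL(2, ℤ)) (z : ℍ) : (j γ z ^ 3) ^ 4 = ((γ 1 0 : ℂ) * z + (γ 1 1 : ℂ)) ^ 6 := by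
  have h1 : (((γ 1 0 : ℂ) * z + (γ 1 1 : ℂ)) ^ (1 / 2 : ℂ)) ^ 2 = (γ 1 0 : ℂ) * z + (γ 1 1 : ℂ) := by
    rw [← Complex.cpow_nat_mul]
    norm_num
  have h2 : ((sym (γ 1 0) (γ 1 1) : ℤ) : ℂ) ^ 2 = 1 := by exact_mod_cast congrArg (Int.cast : ℤ → ℂ) (sym_sq γ)
  have h3 := eps_pow (γ 1 1)
  have h4 : j γ z ^ 4 = ((γ 1 0 : ℂ) * z + (γ 1 1 : ℂ)) ^ 2 := by
    unfold j
    rw [mul_pow, mul_pow, inv_pow, h3, inv_one, one_mul, show 4 = 2 * 2 from rfl, pow_mul, h2, one_pow, one_mul,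
      pow_mul, h1]
  rw [← pow_mul, mul_comm 3 4, pow_mul, h4, ← pow_mul]

theorem norm_char {N : ℕ} (χ : DirichletCharacter ℂ N) (γ : SL(2, ℤ)) (hγ : γ ∈ Gamma0 N) :
    ‖χ ((γ 1 1 : ℤ) : ZMod N)‖ = 1 := by
  have h : IsUnit ((γ 1 1 : ℤ) : ZMod N) := by
    have h1 := γ.det_coe
    rw [Matrix.det_fin_two] at h1
    rw [Gamma0_mem] at hγ
    have h2 := congrArg (Int.cast : ℤ → ZMod N) h1
    push_cast at h2
    rw [hγ, mul_zero, sub_zero] at h2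
    exact IsUnit.of_mul_eq_one _ ((mul_comm _ _).trans h2)
  obtain ⟨u, hu⟩ := h
  rw [← hu]
  exact χ.unit_norm_eq_one u

theorem norm_slash {N : ℕ} {χ : DirichletCharacter ℂ N} {f : ℍ → ℂ} (hf : IsCuspForm N χ f) (γ : SL(2, ℤ))
    (hγ : γ ∈ Gamma0 N) (z : ℍ) : ‖f (γ • z)‖ ^ 4 = ‖denom γ z‖ ^ 6 * ‖f z‖ ^ 4 := by
  rw [hf.slash γ hγ z, norm_mul, norm_mul, norm_char χ γ hγ, one_mul, mul_pow, ← norm_pow, j_pow, ← denom_eq, norm_pow]

/-- the invariant function -/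
noncomputable def G (f : ℍ → ℂ) (z : ℍ) : ℝ := ‖f z‖ ^ 4 * z.im ^ 3

theorem im_smul (σ : SL(2, ℤ)) (z : ℍ) : (σ • z).im = z.im / ‖denom σ z‖ ^ 2 := by
  rw [ModularGroup.im_smul_eq_div_normSq, Complex.normSq_eq_norm_sq]

theorem G_smul (f : ℍ → ℂ) (σ : SL(2, ℤ)) (z : ℍ) :
    G f (σ • z) = ‖((fun w => f w ^ 4) ∣[(6 : ℤ)] σ) z‖ * z.im ^ 3 := by
  have hd : 0 < ‖denom σ z‖ := norm_pos_iff.2 (denom_ne_zero σ z)
  unfold G
  rw [im_smul, ModularForm.SL_slash_apply, norm_mul, norm_pow, norm_zpow, div_pow, zpow_neg]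
  rw [show (‖denom σ z‖ ^ (6 : ℤ)) = ‖denom σ z‖ ^ 6 from by norm_cast]
  field_simp

theorem G_inv {N : ℕ} {χ : DirichletCharacter ℂ N} {f : ℍ → ℂ} (hf : IsCuspForm N χ f) (γ : SL(2, ℤ))
    (hγ : γ ∈ Gamma0 N) (z : ℍ) : G f (γ • z) = G f z := by
  have hd : 0 < ‖denom γ z‖ := norm_pos_iff.2 (denom_ne_zero γ z)
  unfold G
  rw [im_smul, norm_slash hf γ hγ z]
  field_simp

open scoped Manifold in
theorem F_slash {N : ℕ} {χ : DirichletCharacter ℂ N} {f : ℍ → ℂ} (hf : IsCuspForm N χ f) (γ : SL(2, ℤ))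
    (hγ : γ ∈ Gamma N) : (fun w => f w ^ 4) ∣[(6 : ℤ)] γ = fun w => f w ^ 4 := by
  have h0 : γ ∈ Gamma0 N := by
    rw [Gamma0_mem]
    rw [Gamma_mem] at hγ
    exact hγ.2.2.1
  have h1 : ((γ 1 1 : ℤ) : ZMod N) = 1 := by
    rw [Gamma_mem] at hγ
    exact hγ.2.2.2
  funext z
  rw [ModularForm.slash_action_eq'_iff, hf.slash γ h0 z, h1, map_one, one_mul, mul_pow, j_pow]
  norm_cast

theorem T_pow_mem (N : ℕ) (σ : SL(2, ℤ)) : σ * ModularGroup.T ^ (N : ℤ) * σ⁻¹ ∈ Gamma N := by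
  have h1 : ModularGroup.T ^ (N : ℤ) ∈ Gamma N := by
    rw [Gamma_mem]
    rw [ModularGroup.coe_T_zpow]
    simp
  exact (Gamma_normal N).conj_mem _ h1 σ

theorem periodic {N : ℕ} {χ : DirichletCharacter ℂ N} {f : ℍ → ℂ} (hf : IsCuspForm N χ f) (σ : SL(2, ℤ)) :
    Function.Periodic (((fun w => f w ^ 4) ∣[(6 : ℤ)] σ) ∘ ofComplex) (N : ℝ) := by
  have h0 : ∀ z : ℍ, ((fun w => f w ^ 4) ∣[(6 : ℤ)] σ) (ModularGroup.T ^ (N : ℤ) • z) =
      ((fun w => f w ^ 4) ∣[(6 : ℤ)] σ) z := by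
    intro z
    have h1 : ((fun w => f w ^ 4) ∣[(6 : ℤ)] σ) ∣[(6 : ℤ)] (ModularGroup.T ^ (N : ℤ)) =
        (fun w => f w ^ 4) ∣[(6 : ℤ)] σ := by
      rw [← SlashAction.slash_mul]
      have h2 : σ * ModularGroup.T ^ (N : ℤ) = (σ * ModularGroup.T ^ (N : ℤ) * σ⁻¹) * σ := by group
      rw [h2, SlashAction.slash_mul, F_slash hf _ (T_pow_mem N σ)]
    have h3 := congrFun h1 z
    rw [ModularForm.slash_action_eq'_iff] at h3
    rw [h3]
    have h4 : ((ModularGroup.T ^ (N : ℤ) : SL(2, ℤ)) 1 0) = 0 := by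
      rw [ModularGroup.coe_T_zpow]
      simp
    have h5 : ((ModularGroup.T ^ (N : ℤ) : SL(2, ℤ)) 1 1) = 1 := by
      rw [ModularGroup.coe_T_zpow]
      simp
    rw [h4, h5]
    simp
  intro w
  by_cases hw : 0 < w.im
  · have : 0 < (w + (N : ℝ)).im := by simp [hw]
    simp only [Function.comp_apply, ofComplex_apply_of_im_pos this, ofComplex_apply_of_im_pos hw]
    have h6 : (⟨w + (N : ℝ), this⟩ : ℍ) = ModularGroup.T ^ (N : ℤ) • (⟨w, hw⟩ : ℍ) := by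
      apply UpperHalfPlane.ext
      rw [ModularGroup.coe_T_zpow_smul_eq]
      simp
    rw [h6, h0]
  · have hw' : w.im ≤ 0 := not_lt.1 hw
    have : (w + (N : ℝ)).im ≤ 0 := by simpa using hw'
    simp only [Function.comp_apply, ofComplex_apply_of_im_nonpos this, ofComplex_apply_of_im_nonpos hw']

theorem zero_slash {N : ℕ} {χ : DirichletCharacter ℂ N} {f : ℍ → ℂ} (hf : IsCuspForm N χ f) (σ : SL(2, ℤ)) :
    IsZeroAtImInfty ((fun w => f w ^ 4) ∣[(6 : ℤ)] σ) := by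
  have h1 : ((fun w => f w ^ 4) ∣[(6 : ℤ)] σ) =
      fun z : ℍ => (f (σ • z) * ((σ 1 0 : ℂ) * z + (σ 1 1 : ℂ)) ^ (-(3 / 2) : ℂ)) ^ 4 := by
    funext z
    have hd := denom_ne_zero σ z
    rw [denom_eq] at hd
    rw [ModularForm.SL_slash_apply, mul_pow, denom_eq, ← Complex.cpow_nat_mul]
    congr 1
    rw [← Complex.cpow_intCast]
    congr 1
    norm_num
  rw [h1]
  have h2 := (hf.zero σ)
  unfold IsZeroAtImInfty ZeroAtFilter at h2 ⊢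
  have h3 := h2.pow 4
  simpa using h3

theorem holo_slash {N : ℕ} {χ : DirichletCharacter ℂ N} {f : ℍ → ℂ} (hf : IsCuspForm N χ f) (σ : SL(2, ℤ)) :
    MDifferentiable (modelWithCornersSelf ℂ ℂ) (modelWithCornersSelf ℂ ℂ) ((fun w => f w ^ 4) ∣[(6 : ℤ)] σ) := by
  have h1 : MDifferentiable (modelWithCornersSelf ℂ ℂ) (modelWithCornersSelf ℂ ℂ) (fun w => f w ^ 4) := hf.holo.pow 4
  exact h1.slash 6 (σ : GL (Fin 2) ℝ)

theorem G_bounded {N : ℕ} (hN : 0 < N) {χ : DirichletCharacter ℂ N} {f : ℍ → ℂ} (hf : IsCuspForm N χ f)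
    (σ : SL(2, ℤ)) : (fun z => G f (σ • z)) =O[atImInfty] fun z => z.im ^ (0 : ℝ) := by
  have hN' : (0 : ℝ) < N := by exact_mod_cast hN
  have h1 := (zero_slash hf σ).exp_decay_atImInfty hN' (periodic hf σ) (holo_slash hf σ)
    (zero_slash hf σ).isBoundedAtImInfty
  have h2 : (fun z : ℍ => z.im ^ 3) =O[atImInfty] fun z => Real.exp (2 * Real.pi * z.im / N) := by
    have h3 : (fun y : ℝ => y ^ 3) =o[atTop] fun y => Real.exp (2 * Real.pi / N * y) :=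
      isLittleO_pow_exp_pos_mul_atTop 3 (by positivity)
    have h4 := (h3.isBigO.comp_tendsto (tendsto_comap (f := UpperHalfPlane.im) (x := atTop)))
    refine h4.congr (fun z => rfl) (fun z => ?_)
    simp only [Function.comp_apply]
    congr 1
    ring
  have h5 := h1.norm_left.mul h2
  refine h5.congr (fun z => (G_smul f σ z).symm) (fun z => ?_)
  rw [Real.rpow_zero, ← Real.exp_add]
  rw [show -2 * Real.pi * z.im / N + 2 * Real.pi * z.im / N = 0 from by ring, Real.exp_zero]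

/-- `|f(z)| (Im z) ^ (3/4)` is bounded -/
theorem bounded {N : ℕ} [NeZero N] {χ : DirichletCharacter ℂ N} {f : ℍ → ℂ} (hf : IsCuspForm N χ f) :
    ∃ C : ℝ, 0 ≤ C ∧ ∀ z : ℍ, ‖f z‖ ^ 4 * z.im ^ 3 ≤ C := by
  have hcont : Continuous (G f) := by
    unfold G
    have h1 : Continuous f := hf.holo.continuous
    exact (h1.norm.pow 4).mul (continuous_im.pow 3)
  obtain ⟨C, hC⟩ := ModularGroup.exists_bound_of_subgroup_invariant_of_isBigO hcont le_rfl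
    (G_bounded (Nat.pos_of_ne_zero (NeZero.ne N)) hf) (Γ := Gamma0 N) (fun g hg τ => G_inv hf g hg τ)
  have hG : ∀ z, 0 ≤ G f z := by
    intro z
    unfold G
    have := z.im_pos
    positivity
  refine ⟨|C|, abs_nonneg _, fun z => ?_⟩
  have h1 := hC z
  rw [Real.rpow_zero, mul_one, Real.norm_of_nonneg (hG z)] at h1
  exact h1.trans (le_abs_self C)

end Pool.Agent.Q84.HW
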