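import Pool.Agent.Q84.HW.Bound

/-!
# Cusp forms of weight 3/2: mean square of the coefficients
-/

set_option autoImplicit false

open scoped Classical MatrixGroups ModularForm

namespace Pool.Agent.Q84.HW

open Filter UpperHalfPlane CongruenceSubgroup Topology Finset MeasureTheory

/-- the coefficient `a_f(n)` of `e^(2 π i n z)` -/
noncomputable def coeff (f : ℍ → ℂ) (n : ℕ) : ℂ := (qExpansion 1 f).coeff n

theorem f_T {N : ℕ} {χ : DirichletCharacter ℂ N} {f : ℍ → ℂ} (hf : IsCuspForm N χ f) (z : ℍ) :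
    f (ModularGroup.T • z) = f z := by
  have hT : ModularGroup.T ∈ Gamma0 N := by
    rw [Gamma0_mem]
    simp [ModularGroup.T]
  have h10 : (ModularGroup.T : SL(2, ℤ)) 1 0 = 0 := by simp [ModularGroup.T]
  have h11 : (ModularGroup.T : SL(2, ℤ)) 1 1 = 1 := by simp [ModularGroup.T]
  rw [hf.slash _ hT z]
  unfold j sym eps
  rw [h10, h11]
  simp

theorem f_periodic {N : ℕ} {χ : DirichletCharacter ℂ N} {f : ℍ → ℂ} (hf : IsCuspForm N χ f) :
    Function.Periodic (f ∘ ofComplex) (1 : ℝ) := by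
  intro w
  by_cases hw : 0 < w.im
  · have : 0 < (w + (1 : ℝ)).im := by simp [hw]
    simp only [Function.comp_apply, ofComplex_apply_of_im_pos this, ofComplex_apply_of_im_pos hw]
    have h6 : (⟨w + (1 : ℝ), this⟩ : ℍ) = ModularGroup.T ^ (1 : ℤ) • (⟨w, hw⟩ : ℍ) := by
      apply UpperHalfPlane.ext
      rw [ModularGroup.coe_T_zpow_smul_eq]
      simp
    rw [h6, zpow_one, f_T hf]
  · have hw' : w.im ≤ 0 := not_lt.1 hw
    have : (w + (1 : ℝ)).im ≤ 0 := by simpa using hw'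
    simp only [Function.comp_apply, ofComplex_apply_of_im_nonpos this, ofComplex_apply_of_im_nonpos hw']

theorem f_zero {N : ℕ} {χ : DirichletCharacter ℂ N} {f : ℍ → ℂ} (hf : IsCuspForm N χ f) : IsZeroAtImInfty f := by
  have h := hf.zero 1
  refine h.congr fun z => ?_
  simp

/-- the expansion of `f` -/
theorem hasSum_coeff {N : ℕ} {χ : DirichletCharacter ℂ N} {f : ℍ → ℂ} (hf : IsCuspForm N χ f) (z : ℍ) :
    HasSum (fun n : ℕ => coeff f n * Complex.exp (2 * Real.pi * Complex.I * n * z)) (f z) := by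
  have h := hasSum_qExpansion one_pos (f_periodic hf) hf.holo (f_zero hf).isBoundedAtImInfty z
  have h1 : (fun n : ℕ => coeff f n * Complex.exp (2 * Real.pi * Complex.I * n * z)) =
      fun n : ℕ => (qExpansion 1 f).coeff n • Function.Periodic.qParam 1 z ^ n := by
    funext n
    unfold coeff Function.Periodic.qParam
    rw [smul_eq_mul, ← Complex.exp_nat_mul]
    congr 2
    push_cast
    ring
  rw [h1]
  exact h

/-- the points on a horizontal line -/
noncomputable def pt (t : ℝ) (ht : 0 < t) (u : ℝ) : ℍ := ⟨(u : ℂ) + t * Complex.I, by simpa using ht⟩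

theorem pt_im (t : ℝ) (ht : 0 < t) (u : ℝ) : (pt t ht u).im = t := by
  rw [← UpperHalfPlane.coe_im]
  simp [pt]

theorem pt_cont (t : ℝ) (ht : 0 < t) : Continuous (pt t ht) := by
  unfold pt
  fun_prop

theorem coeff_eq {N : ℕ} {χ : DirichletCharacter ℂ N} {f : ℍ → ℂ} (hf : IsCuspForm N χ f) (n : ℕ) (t : ℝ)
    (ht : 0 < t) : coeff f n = Complex.exp (2 * Real.pi * n * t) *
      fourierCoeffOn (zero_lt_one' ℝ) (fun u : ℝ => f (pt t ht u)) (n : ℤ) := by
  unfold coeff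
  rw [qExpansion_coeff_eq_intervalIntegral one_pos (f_periodic hf) hf.holo (f_zero hf).isBoundedAtImInfty n ht,
    fourierCoeffOn_eq_integral]
  have h1 : (1 / ((1 : ℝ) : ℂ)) = 1 := by simp
  have h2 : (1 / (1 - 0) : ℝ) = 1 := by norm_num
  rw [h1, h2, one_mul, one_smul, ← intervalIntegral.integral_const_mul]
  apply intervalIntegral.integral_congr
  intro u _
  simp only
  rw [fourier_coe_apply, smul_eq_mul, ← mul_assoc, ← Complex.exp_add]
  have h3 : (1 / Function.Periodic.qParam 1 ((u : ℂ) + t * Complex.I) ^ n) =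
      Complex.exp (2 * Real.pi * n * t + 2 * Real.pi * Complex.I * ((-(n : ℤ) : ℤ) : ℂ) * u / ((1 - 0 : ℝ) : ℂ)) := by
    unfold Function.Periodic.qParam
    rw [one_div, ← Complex.exp_nat_mul, ← Complex.exp_neg]
    congr 1
    push_cast
    ring_nf
    rw [Complex.I_sq]
    ring
  change 1 / Function.Periodic.qParam 1 ((u : ℂ) + t * Complex.I) ^ n * f (pt t ht u) = _
  rw [h3]

/-- the mean square of the coefficients -/
theorem mean_square {N : ℕ} [NeZero N] {χ : DirichletCharacter ℂ N} {f : ℍ → ℂ} (hf : IsCuspForm N χ f) :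
    ∃ C : ℝ, 0 ≤ C ∧ ∀ X : ℕ, 1 ≤ X → ∑ n ∈ range (X + 1), ‖coeff f n‖ ^ 2 ≤ C * (X : ℝ) ^ (3 / 2 : ℝ) := by
  obtain ⟨C, hC0, hC⟩ := bounded hf
  refine ⟨Real.exp (4 * Real.pi) * Real.sqrt C, by positivity, fun X hX => ?_⟩
  have hX0 : (0 : ℝ) < X := by exact_mod_cast hX
  obtain ⟨t, htt⟩ : ∃ t : ℝ, t = 1 / X := ⟨_, rfl⟩
  have ht : 0 < t := by rw [htt]; positivity
  obtain ⟨g, hg⟩ : ∃ g : ℝ → ℂ, g = fun u : ℝ => f (pt t ht u) := ⟨_, rfl⟩
  have hgc : Continuous g := by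
    rw [hg]
    exact hf.holo.continuous.comp (pt_cont t ht)
  have hgb : ∀ u, ‖g u‖ ^ 2 ≤ Real.sqrt C * (X : ℝ) ^ (3 / 2 : ℝ) := by
    intro u
    have h1 := hC (pt t ht u)
    rw [pt_im] at h1
    have h2 : (‖g u‖ ^ 2) ^ 2 ≤ (Real.sqrt C * (X : ℝ) ^ (3 / 2 : ℝ)) ^ 2 := by
      rw [mul_pow, Real.sq_sqrt hC0, ← Real.rpow_natCast ((X : ℝ) ^ (3 / 2 : ℝ)) 2, ← Real.rpow_mul hX0.le]
      norm_num
      rw [← pow_mul, hg]
      simp only
      have h5 : t ^ 3 = ((X : ℝ) ^ 3)⁻¹ := by rw [htt, one_div, inv_pow]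
      rw [h5, ← div_eq_mul_inv, div_le_iff₀ (by positivity)] at h1
      exact h1
    exact (sq_le_sq₀ (by positivity) (by positivity)).1 h2
  have hL2 : MemLp g 2 (volume.restrict (Set.Ioc (0 : ℝ) 1)) := by
    refine MemLp.of_bound hgc.aestronglyMeasurable (Real.sqrt (Real.sqrt C * (X : ℝ) ^ (3 / 2 : ℝ))) ?_
    refine Filter.Eventually.of_forall fun u => ?_
    exact Real.le_sqrt_of_sq_le (hgb u)
  have hsum := hasSum_sq_fourierCoeffOn (zero_lt_one' ℝ) hL2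
  have h1 : ∑ n ∈ range (X + 1), ‖fourierCoeffOn (zero_lt_one' ℝ) g (n : ℤ)‖ ^ 2 ≤
      (1 - 0 : ℝ)⁻¹ • ∫ x in (0 : ℝ)..1, ‖g x‖ ^ 2 := by
    have h2 := sum_le_hasSum ((range (X + 1)).map Nat.castEmbedding) (fun i _ => by positivity) hsum
    rw [sum_map] at h2
    exact h2
  have h2 : (1 - 0 : ℝ)⁻¹ • ∫ x in (0 : ℝ)..1, ‖g x‖ ^ 2 ≤ Real.sqrt C * (X : ℝ) ^ (3 / 2 : ℝ) := by
    have h3 : ‖∫ x in (0 : ℝ)..1, ‖g x‖ ^ 2‖ ≤ (Real.sqrt C * (X : ℝ) ^ (3 / 2 : ℝ)) * |1 - 0| := by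
      apply intervalIntegral.norm_integral_le_of_norm_le_const
      intro x _
      rw [Real.norm_of_nonneg (by positivity)]
      exact hgb x
    rw [sub_zero, abs_one, mul_one] at h3
    rw [sub_zero, inv_one, one_smul]
    exact (le_abs_self _).trans h3
  have h3 : ∀ n ∈ range (X + 1), ‖coeff f n‖ ^ 2 ≤
      Real.exp (4 * Real.pi) * ‖fourierCoeffOn (zero_lt_one' ℝ) g (n : ℤ)‖ ^ 2 := by
    intro n hn
    rw [mem_range] at hn
    have hnX : (n : ℝ) ≤ X := by exact_mod_cast (by omega : n ≤ X)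
    rw [coeff_eq hf n t ht, ← hg, norm_mul, mul_pow]
    apply mul_le_mul_of_nonneg_right _ (by positivity)
    rw [Complex.norm_exp, ← Real.exp_nat_mul]
    apply Real.exp_le_exp.2
    have h4 : (2 * Real.pi * n * t : ℂ).re = 2 * Real.pi * (n * t) := by
      have : (2 * Real.pi * n * t : ℂ) = ((2 * Real.pi * (n * t) : ℝ) : ℂ) := by push_cast; ring
      rw [this, Complex.ofReal_re]
    rw [h4]
    have h5 : (n : ℝ) * t ≤ 1 := by
      rw [htt, mul_one_div, div_le_one hX0]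
      exact hnX
    have hpi := Real.pi_pos
    push_cast
    nlinarith
  calc ∑ n ∈ range (X + 1), ‖coeff f n‖ ^ 2
      ≤ ∑ n ∈ range (X + 1), Real.exp (4 * Real.pi) * ‖fourierCoeffOn (zero_lt_one' ℝ) g (n : ℤ)‖ ^ 2 := sum_le_sum h3
    _ = Real.exp (4 * Real.pi) * ∑ n ∈ range (X + 1), ‖fourierCoeffOn (zero_lt_one' ℝ) g (n : ℤ)‖ ^ 2 := by
        rw [mul_sum]
    _ ≤ Real.exp (4 * Real.pi) * (Real.sqrt C * (X : ℝ) ^ (3 / 2 : ℝ)) :=
        mul_le_mul_of_nonneg_left (h1.trans h2) (Real.exp_pos _).le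
    _ = _ := by ring

end Pool.Agent.Q84.HW
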